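import Pool.Agent.helper34.MO.SpecC

/-! Project MO (MP_0631c5_co), row TDF: triangle dominance. -/

open Complex Finset

namespace Pool.Agent.MO

theorem TDF_num {x s : ℝ} (hx0 : 0 ≤ x) (hx1 : x ≤ Real.pi / 2) (hs : s = Real.sin x) (hs1 : s ≤ 0.19612) :
    x ≤ 1.0066 * s := by
  have hj : 2 / Real.pi * x ≤ Real.sin x := Real.mul_le_sin hx0 hx1
  have hpi : Real.pi < 3.15 := Real.pi_lt_d2
  have hpi0 : 0 < Real.pi := Real.pi_pos
  have hc : x - x ^ 3 / 6 ≤ Real.sin x := Real.sin_ge_sub_cube hx0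
  rw [← hs] at hj hc
  have h1 : x ≤ 0.31 := by
    have h2 : x = (2 / Real.pi * x) * (Real.pi / 2) := by field_simp
    have h3 : (2 / Real.pi * x) * (Real.pi / 2) ≤ 0.19612 * (Real.pi / 2) := by
      apply mul_le_mul_of_nonneg_right (by linarith) (by positivity)
    have h4 : (0.19612 : ℝ) * (Real.pi / 2) ≤ 0.31 := by nlinarith
    linarith
  have h2 : x ≤ 0.1994 := by
    have h3 : x ^ 2 ≤ 0.0961 := by nlinarith
    have h4 : x * (1 - x ^ 2 / 6) ≤ 0.19612 := by nlinarith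
    have h5 : x * 0.983983 ≤ x * (1 - x ^ 2 / 6) := by
      apply mul_le_mul_of_nonneg_left _ hx0
      linarith
    nlinarith
  have h3 : x ≤ 0.19745 := by
    have h3 : x ^ 2 ≤ 0.0397604 := by nlinarith
    have h4 : x * (1 - x ^ 2 / 6) ≤ 0.19612 := by nlinarith
    have h5 : x * 0.99337 ≤ x * (1 - x ^ 2 / 6) := by
      apply mul_le_mul_of_nonneg_left _ hx0
      linarith
    nlinarith
  have h4 : x ^ 2 ≤ 0.0389866 := by nlinarith
  have h5 : x * 0.9935 ≤ x * (1 - x ^ 2 / 6) := by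
    apply mul_le_mul_of_nonneg_left _ hx0
    linarith
  have h6 : x * (1 - x ^ 2 / 6) ≤ s := by nlinarith
  nlinarith

theorem TDF_arg {z : ℂ} {t : ℝ} (ht : 10 ≤ t) (h1 : t ≤ z.re) (h2 : |z.im| ≤ 2 / t * z.re) :
    ∃ w : ℝ, 1 / ‖z‖ ≤ w ∧ w ≤ 1.0066 / t ∧ w * z.im ≤ arg z ∧ (0 ≤ z.im → w = 1 / ‖z‖) ∧
      (z.im < 0 → w = 1.0066 / ‖z‖) := by
  have ht0 : 0 < t := by linarith
  have hre : 0 < z.re := by linarith
  have hn : t ≤ ‖z‖ := le_trans h1 (Complex.re_le_norm z)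
  have hn0 : 0 < ‖z‖ := by linarith
  have hsin : Real.sin (arg z) = z.im / ‖z‖ := Complex.sin_arg z
  by_cases him : 0 ≤ z.im
  · refine ⟨1 / ‖z‖, le_refl _, ?_, ?_, fun _ => rfl, fun h => absurd him (not_le.mpr h)⟩
    · rw [div_le_div_iff₀ hn0 ht0]
      nlinarith
    · have h0 : 0 ≤ arg z := Complex.arg_nonneg_iff.mpr him
      have h3 := Real.sin_le h0
      rw [hsin] at h3
      have h4 : 1 / ‖z‖ * z.im = z.im / ‖z‖ := by ring
      rw [h4]
      exact h3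
  · push Not at him
    refine ⟨1.0066 / ‖z‖, ?_, ?_, ?_, fun h => absurd h (not_le.mpr him), fun _ => rfl⟩
    · apply div_le_div_of_nonneg_right _ hn0.le
      norm_num
    · apply div_le_div_of_nonneg_left (by norm_num) ht0 hn
    · have h0 : arg z < 0 := Complex.arg_neg_iff.mpr him
      have h5 : |arg z| ≤ Real.pi / 2 := Complex.abs_arg_le_pi_div_two_iff.mpr hre.le
      have h6 : -arg z ≤ Real.pi / 2 := by
        have := abs_le.mp h5
        linarith [this.1]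
      have h7 : -(z.im / ‖z‖) = Real.sin (-arg z) := by rw [Real.sin_neg, hsin]
      have h8 : -(z.im / ‖z‖) ≤ 0.19612 := by
        have h9 : |z.im| ≤ z.re / 5 := by
          have : 2 / t * z.re ≤ z.re / 5 := by
            rw [div_mul_eq_mul_div, div_le_div_iff₀ ht0 (by norm_num)]
            nlinarith
          linarith
        have h10 : ‖z‖ ^ 2 = z.re ^ 2 + z.im ^ 2 := by
          rw [← Complex.normSq_eq_norm_sq, Complex.normSq_apply]
          ring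
        have h11 : -z.im ≤ 0.19612 * ‖z‖ := by
          have h12 : -z.im ≤ z.re / 5 := by
            have := neg_le_abs z.im
            linarith
          by_contra hcon
          push Not at hcon
          nlinarith
        rw [← neg_div, div_le_iff₀ hn0]
        exact h11
      have h9 := TDF_num (x := -arg z) (s := -(z.im / ‖z‖)) (by linarith) h6 h7 h8
      have h10 : 1.0066 / ‖z‖ * z.im = -(1.0066 * -(z.im / ‖z‖)) := by ring
      rw [h10]
      linarith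

theorem TDF (hTDI : TDI_stmt) (hINV : INV_stmt) (hSCP : SCP_stmt) (hINV0 : INV0_stmt) : TDF_stmt := by
  intro t τ ht
  have ht0 : 0 < t := by linarith
  obtain ⟨hreg, hal, hbe⟩ := hINV t τ ht
  obtain ⟨-, hA, hB⟩ := hSCP t τ τ ht0
  set d := bd (uni t τ) with hd
  set Pa : ℂ := t + d.al with hPa
  set Pb : ℂ := t + d.be - (d.mu - I) ^ 2 / Pa with hPb
  have hA' : t ≤ Pa.re ∧ |Pa.im| ≤ 2 / t * Pa.re := hA
  have hB' : t ≤ Pb.re ∧ |Pb.im| ≤ 2 / t * Pb.re := hB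
  obtain ⟨-, -, hk⟩ := hINV0 t Pa d.mu d.mu ht hA'.1 hA'.2 hreg hreg
  obtain ⟨wb, hwb1, hwb2, hwb3, hwb4, hwb5⟩ := TDF_arg ht hB'.1 hB'.2
  obtain ⟨w0, hw01, hw02, hw03, hw04, hw05⟩ := TDF_arg ht hA'.1 hA'.2
  have hPan : t ≤ ‖Pa‖ := le_trans hA'.1 (Complex.re_le_norm Pa)
  have hPbn : t ≤ ‖Pb‖ := le_trans hB'.1 (Complex.re_le_norm Pb)
  have hPan0 : 0 < ‖Pa‖ := by linarith
  have hPbn0 : 0 < ‖Pb‖ := by linarith
  have hPa0 : Pa ≠ 0 := norm_pos_iff.mp hPan0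
  -- norms of the pivots
  have hPaU : ‖Pa‖ ≤ t + 1.053 * τ.ls / t := by
    calc ‖Pa‖ ≤ ‖(t : ℂ)‖ + ‖d.al‖ := norm_add_le _ _
      _ ≤ t + 1.053 * τ.ls / t := by
        rw [Complex.norm_real, Real.norm_of_nonneg ht0.le]
        linarith
  have hPbU : ‖Pb‖ ≤ t + 1.053 * ((τ.rs + 1 : ℕ) : ℝ) / t := by
    calc ‖Pb‖ ≤ ‖(t : ℂ) + d.be‖ + ‖(d.mu - I) ^ 2 / Pa‖ := norm_sub_le _ _
      _ ≤ (‖(t : ℂ)‖ + ‖d.be‖) + ‖(d.mu - I) ^ 2 / Pa‖ := by
        gcongr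
        exact norm_add_le _ _
      _ ≤ t + 1.053 * ((τ.rs + 1 : ℕ) : ℝ) / t := by
        rw [Complex.norm_real, Real.norm_of_nonneg ht0.le]
        have : t + 1.053 * ((τ.rs + 1 : ℕ) : ℝ) / t = (t + 1.053 * (τ.rs : ℝ) / t) + 1.053 / t := by
          push_cast
          ring
        rw [this]
        linarith
  have hiTa : iT t τ.ls ≤ 1 / ‖Pa‖ := by
    have h1 : iT t τ.ls = 1 / (t + 1.053 * τ.ls / t) := by
      unfold iT
      field_simp
    rw [h1]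
    exact one_div_le_one_div_of_le hPan0 hPaU
  have hiTb : iT t (τ.rs + 1) ≤ 1 / ‖Pb‖ := by
    have h1 : iT t (τ.rs + 1) = 1 / (t + 1.053 * ((τ.rs + 1 : ℕ) : ℝ) / t) := by
      unfold iT
      field_simp
    rw [h1]
    exact one_div_le_one_div_of_le hPbn0 hPbU
  have hiTa0 : 0 ≤ iT t τ.ls := by unfold iT; positivity
  have hiTb0 : 0 ≤ iT t (τ.rs + 1) := by unfold iT; positivity
  -- the square k^2
  set k2 : ℂ := (1 + I * d.mu) ^ 2 with hk2
  have hk2eq : (d.mu - I) ^ 2 = -k2 := by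
    rw [hk2]
    have : I ^ 2 = -1 := Complex.I_sq
    linear_combination (d.mu ^ 2 + 1) * this
  obtain ⟨hm1, hm2, hm3, hm4⟩ := hreg
  have hk2re : k2.re = (1 - d.mu.im) ^ 2 - d.mu.re ^ 2 := by
    rw [hk2]
    simp [pow_two]
    ring
  have hk2im : k2.im = 2 * d.mu.re * (1 - d.mu.im) := by
    rw [hk2]
    simp [pow_two]
    ring
  have hre1 : |d.mu.re| ≤ 0.1053 := le_trans (Complex.abs_re_le_norm _) hm4
  have hre2 : d.mu.re ^ 2 ≤ 0.0112 := by
    have := abs_le.mp hre1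
    nlinarith [this.1, this.2]
  have hk2re0 : 0 ≤ k2.re := by
    rw [hk2re]
    nlinarith
  have hk2re1 : k2.re ≤ 1.05 := by
    rw [hk2re]
    nlinarith
  have hk2im0 : 0 ≤ k2.im := by
    rw [hk2im]
    have : 0 ≤ 1 - d.mu.im := by linarith
    positivity
  -- imaginary part of Pb
  have hdiv : (k2 / Pa).im = (Pa.re / ‖Pa‖ ^ 2) * k2.im - (Pa.im / ‖Pa‖ ^ 2) * k2.re := by
    rw [Complex.div_im, Complex.normSq_eq_norm_sq]
    ring
  have hPbim : Pb.im = d.be.im + ((Pa.re / ‖Pa‖ ^ 2) * k2.im - (Pa.im / ‖Pa‖ ^ 2) * k2.re) := by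
    rw [← hdiv, hPb, hk2eq]
    have h1 : (t : ℂ) + d.be - -k2 / Pa = (t : ℂ) + d.be + k2 / Pa := by ring
    rw [h1]
    simp
  have hPaim : Pa.im = d.al.im := by
    rw [hPa]
    simp
  have hwb0 : 0 < wb := lt_of_lt_of_le (by positivity) hwb1
  have hwbU : wb ≤ 0.10066 := by
    refine le_trans hwb2 ?_
    rw [div_le_iff₀ ht0]
    nlinarith
  have hρ : 1 / ‖Pa‖ ≤ 0.1 := by
    rw [div_le_iff₀ hPan0]
    nlinarith
  have hρt : 1 / ‖Pa‖ ≤ 1 / t := one_div_le_one_div_of_le ht0 hPan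
  have hρ0 : 0 < 1 / ‖Pa‖ := by positivity
  -- choice of wa
  obtain ⟨wa, hwa1, hwa2, hwa3⟩ : ∃ wa : ℝ, 0.979 * (1 / ‖Pa‖) ≤ wa ∧ wa ≤ 1.0066 / t ∧
      wa * d.al.im ≤ arg Pa - wb * ((Pa.im / ‖Pa‖ ^ 2) * k2.re) := by
    by_cases him : 0 ≤ Pa.im
    · have hw := hw04 him
      refine ⟨(1 / ‖Pa‖) * (1 - wb * (1 / ‖Pa‖) * k2.re), ?_, ?_, ?_⟩
      · have h1 : wb * (1 / ‖Pa‖) * k2.re ≤ 0.021 := by
          have h2 : wb * (1 / ‖Pa‖) ≤ 0.10066 * 0.1 := mul_le_mul hwbU hρ hρ0.le (by norm_num)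
          have h3 : wb * (1 / ‖Pa‖) * k2.re ≤ 0.10066 * 0.1 * 1.05 :=
            mul_le_mul h2 hk2re1 hk2re0 (by norm_num)
          linarith
        nlinarith
      · have h1 : 0 ≤ wb * (1 / ‖Pa‖) * k2.re := by positivity
        have h2 : (1 / ‖Pa‖) * (1 - wb * (1 / ‖Pa‖) * k2.re) ≤ 1 / ‖Pa‖ := by nlinarith
        have h3 : (1 : ℝ) / t ≤ 1.0066 / t := by
          apply div_le_div_of_nonneg_right _ ht0.le
          norm_num
        linarith
      · rw [hw] at hw03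
        rw [← hPaim]
        have h1 : (1 / ‖Pa‖) * (1 - wb * (1 / ‖Pa‖) * k2.re) * Pa.im
            = 1 / ‖Pa‖ * Pa.im - wb * ((Pa.im / ‖Pa‖ ^ 2) * k2.re) := by
          field_simp
        rw [h1]
        linarith
    · push Not at him
      have hw := hw05 him
      refine ⟨1.0066 / ‖Pa‖, ?_, ?_, ?_⟩
      · have : (1.0066 : ℝ) / ‖Pa‖ = 1.0066 * (1 / ‖Pa‖) := by ring
        rw [this]
        nlinarith
      · apply div_le_div_of_nonneg_left (by norm_num) ht0 hPan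
      · rw [hw] at hw03
        rw [← hPaim]
        have h1 : wb * ((Pa.im / ‖Pa‖ ^ 2) * k2.re) ≤ 0 := by
          have h2 : Pa.im / ‖Pa‖ ^ 2 ≤ 0 := div_nonpos_of_nonpos_of_nonneg him.le (by positivity)
          have h3 : (Pa.im / ‖Pa‖ ^ 2) * k2.re ≤ 0 := mul_nonpos_of_nonpos_of_nonneg h2 hk2re0
          exact mul_nonpos_of_nonneg_of_nonpos hwb0.le h3
        linarith
  -- om
  have hca : Pa.re / ‖Pa‖ ^ 2 ≤ 1 / t := by
    have h1 : Pa.re / ‖Pa‖ ^ 2 ≤ 1 / ‖Pa‖ := by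
      rw [div_le_div_iff₀ (by positivity) hPan0]
      have := Complex.re_le_norm Pa
      nlinarith
    linarith
  have hca2 : 0.98058 * (1 / ‖Pa‖) ≤ Pa.re / ‖Pa‖ ^ 2 := by
    have h9 : |Pa.im| ≤ Pa.re / 5 := by
      have : 2 / t * Pa.re ≤ Pa.re / 5 := by
        rw [div_mul_eq_mul_div, div_le_div_iff₀ ht0 (by norm_num)]
        nlinarith [hA'.1]
      linarith [hA'.2]
    have h10 : ‖Pa‖ ^ 2 = Pa.re ^ 2 + Pa.im ^ 2 := by
      rw [← Complex.normSq_eq_norm_sq, Complex.normSq_apply]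
      ring
    have h12 : Pa.im ^ 2 ≤ (Pa.re / 5) ^ 2 := by
      rw [← sq_abs Pa.im]
      exact pow_le_pow_left₀ (abs_nonneg _) h9 2
    have hre0 : 0 < Pa.re := lt_of_lt_of_le ht0 hA'.1
    have h13 : 0.98058 * ‖Pa‖ ≤ Pa.re := by
      by_contra hcon
      push Not at hcon
      nlinarith
    rw [mul_one_div, div_le_div_iff₀ hPan0 (by positivity)]
    nlinarith
  have hca0 : 0 ≤ Pa.re / ‖Pa‖ ^ 2 := by
    have : 0 ≤ Pa.re := by linarith [hA'.1]
    positivity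
  have hmain := hTDI t τ τ.ls (τ.rs + 1) wa wb (wb * (Pa.re / ‖Pa‖ ^ 2)) ht
    (by nlinarith) hwa2 (by nlinarith) hwb2
    (by
      have h1 : 0.9599 * iT t τ.ls ≤ Pa.re / ‖Pa‖ ^ 2 := by nlinarith
      have h2 : iT t (τ.rs + 1) ≤ wb := le_trans hiTb hwb1
      calc 0.9599 * iT t τ.ls * iT t (τ.rs + 1) ≤ (Pa.re / ‖Pa‖ ^ 2) * wb :=
            mul_le_mul h1 h2 hiTb0 hca0
        _ = wb * (Pa.re / ‖Pa‖ ^ 2) := by ring)
    (by
      have h1 : wb * (Pa.re / ‖Pa‖ ^ 2) ≤ wb * (1 / t) := mul_le_mul_of_nonneg_left hca hwb0.le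
      have h2 : wb * (1 / t) ≤ max wa wb * (1 / t) :=
        mul_le_mul_of_nonneg_right (le_max_right _ _) (by positivity)
      linarith [mul_comm (max wa wb) (1 / t)])
  have hphi : phiW (some t) (some t) (uni t τ) = d.psi + (arg Pa + arg Pb) := by
    simp only [phiW, ph2]
    rfl
  rw [hphi]
  have h1 : wb * Pb.im = wb * d.be.im + wb * (Pa.re / ‖Pa‖ ^ 2) * k2.im
      - wb * ((Pa.im / ‖Pa‖ ^ 2) * k2.re) := by
    rw [hPbim]
    ring
  have h2 : (0.83 : ℝ) * ZT t τ τ.ls (τ.rs + 1) ≤ d.psi + wa * d.al.im + wb * d.be.im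
    + (wb * (Pa.re / ‖Pa‖ ^ 2)) * k2.im := hmain
  linarith

end Pool.Agent.MO
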